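import Pool.Agent.Helper15.PL.Flags

/-!
# MP_614ca1_co: the final polynomials (Pappus and Desargues) for the eight labelled solutions

The eight labelled sign patterns with 60 triangles contain a configuration which violates the
theorem of Pappus or of Desargues.
-/

namespace Pool.Agent.Helper15.PL

namespace FP

theorem det3_yxz (x y z : V3) : det3 y x z = - det3 x y z := by unfold det3; ring
theorem det3_xzy (x y z : V3) : det3 x z y = - det3 x y z := by unfold det3; ring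
theorem det3_zyx (x y z : V3) : det3 z y x = - det3 x y z := by unfold det3; ring
theorem det3_yzx (x y z : V3) : det3 y z x = det3 x y z := by unfold det3; ring
theorem det3_zxy (x y z : V3) : det3 z x y = det3 x y z := by unfold det3; ring

/-- The three term relation. -/
theorem gp (x p q r s : V3) :
    det3 x p q * det3 x r s - det3 x p r * det3 x q s + det3 x p s * det3 x q r = 0 := by
  unfold det3; ring

theorem rel (x p q r s : V3) (h : det3 x p q = 0) :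
    det3 x p r * det3 x q s = det3 x p s * det3 x q r := by
  linear_combination det3 x r s * h - gp x p q r s

/-- Pappus configuration, classes 0 and 1. -/
theorem fp_pappus1 {a : Fin 14 → V3}
    (z0 : det3 (a 0) (a 1) (a 2) = 0)
    (z1 : det3 (a 0) (a 5) (a 6) = 0)
    (z2 : det3 (a 0) (a 9) (a 10) = 0)
    (z3 : det3 (a 1) (a 5) (a 8) = 0)
    (z4 : det3 (a 1) (a 9) (a 12) = 0)
    (z5 : det3 (a 2) (a 6) (a 12) = 0)
    (z6 : det3 (a 2) (a 8) (a 10) = 0)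
    (z7 : det3 (a 5) (a 10) (a 12) = 0)
    (n0 : det3 (a 0) (a 2) (a 5) ≠ 0)
    (n1 : det3 (a 0) (a 2) (a 6) ≠ 0)
    (n2 : det3 (a 0) (a 2) (a 12) ≠ 0)
    (n3 : det3 (a 0) (a 5) (a 9) ≠ 0)
    (n4 : det3 (a 0) (a 6) (a 9) ≠ 0)
    (n5 : det3 (a 1) (a 2) (a 5) ≠ 0)
    (n6 : det3 (a 1) (a 2) (a 12) ≠ 0)
    (n7 : det3 (a 1) (a 5) (a 10) ≠ 0)
    (n8 : det3 (a 1) (a 5) (a 12) ≠ 0)
    (n9 : det3 (a 2) (a 5) (a 8) ≠ 0)
    (n10 : det3 (a 2) (a 6) (a 10) ≠ 0)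
    (n11 : det3 (a 2) (a 9) (a 12) ≠ 0)
    (n12 : det3 (a 5) (a 8) (a 10) ≠ 0)
    (n13 : det3 (a 5) (a 9) (a 10) ≠ 0)
    (n14 : det3 (a 5) (a 9) (a 12) ≠ 0)
    (n15 : det3 (a 6) (a 8) (a 9) ≠ 0)
    : False := by
  have e0 := rel (a 0) (a 5) (a 6) (a 2) (a 9) z1
  rw [det3_xzy (a 0) (a 2) (a 5), det3_xzy (a 0) (a 2) (a 6)] at e0
  have e1 := rel (a 2) (a 0) (a 1) (a 12) (a 5) (by rw [det3_zxy (a 0) (a 1) (a 2), z0])
  rw [det3_yxz (a 0) (a 2) (a 12), det3_yxz (a 1) (a 2) (a 5), det3_yxz (a 0) (a 2) (a 5), det3_yxz (a 1) (a 2) (a 12)] at e1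
  have e2 := rel (a 2) (a 12) (a 6) (a 0) (a 9) (by rw [det3_xzy (a 2) (a 6) (a 12), z5, neg_zero])
  rw [det3_yzx (a 0) (a 2) (a 12), det3_xzy (a 2) (a 9) (a 12), det3_yzx (a 0) (a 2) (a 6)] at e2
  have e3 := rel (a 12) (a 1) (a 9) (a 2) (a 5) (by rw [det3_zxy (a 1) (a 9) (a 12), z4])
  rw [det3_zxy (a 1) (a 2) (a 12), det3_zyx (a 5) (a 9) (a 12), det3_zxy (a 1) (a 5) (a 12), det3_zyx (a 2) (a 9) (a 12)] at e3
  have e4 := rel (a 8) (a 2) (a 10) (a 5) (a 6) (by rw [det3_yxz (a 2) (a 8) (a 10), z6, neg_zero])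
  rw [det3_zxy (a 2) (a 5) (a 8), det3_yzx (a 6) (a 8) (a 10), det3_zxy (a 2) (a 6) (a 8), det3_yzx (a 5) (a 8) (a 10)] at e4
  have e5 := rel (a 5) (a 1) (a 8) (a 2) (a 10) (by rw [det3_yxz (a 1) (a 5) (a 8), z3, neg_zero])
  rw [det3_zxy (a 1) (a 2) (a 5), det3_yxz (a 1) (a 5) (a 10), det3_yzx (a 2) (a 5) (a 8)] at e5
  have e6 := rel (a 5) (a 12) (a 10) (a 1) (a 9) (by rw [det3_xzy (a 5) (a 10) (a 12), z7, neg_zero])
  rw [det3_yzx (a 1) (a 5) (a 12), det3_xzy (a 5) (a 9) (a 10), det3_xzy (a 5) (a 9) (a 12), det3_yzx (a 1) (a 5) (a 10)] at e6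
  have e7 := rel (a 9) (a 0) (a 10) (a 5) (a 6) (by rw [det3_yxz (a 0) (a 9) (a 10), z2, neg_zero])
  rw [det3_zxy (a 0) (a 5) (a 9), det3_yzx (a 6) (a 9) (a 10), det3_zxy (a 0) (a 6) (a 9), det3_yzx (a 5) (a 9) (a 10)] at e7
  have t := gp (a 6) (a 2) (a 8) (a 10) (a 9)
  rw [det3_yxz (a 2) (a 6) (a 8), det3_xzy (a 6) (a 9) (a 10), det3_yxz (a 2) (a 6) (a 10), det3_yxz (a 2) (a 6) (a 9)] at t
  have key : ((det3 (a 0) (a 2) (a 5)) * (det3 (a 0) (a 2) (a 6)) * (det3 (a 0) (a 2) (a 12)) * (det3 (a 0) (a 5) (a 9)) * (det3 (a 0) (a 6) (a 9)) * (det3 (a 1) (a 2) (a 5)) * (det3 (a 1) (a 2) (a 12)) * (det3 (a 1) (a 5) (a 10)) * (det3 (a 1) (a 5) (a 12)) * (det3 (a 2) (a 5) (a 8)) * (det3 (a 2) (a 9) (a 12)) * (det3 (a 5) (a 8) (a 10)) * (det3 (a 5) (a 9) (a 10)) * (det3 (a 5) (a 9) (a 12))) * ((det3 (a 2) (a 6) (a 10)) * (det3 (a 6) (a 8) (a 9))) =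 0 := by
    linear_combination (1 : ℝ) * (((det3 (a 0) (a 2) (a 5)) * (det3 (a 0) (a 2) (a 6)) * (det3 (a 0) (a 2) (a 12)) * (det3 (a 0) (a 5) (a 9)) * (det3 (a 0) (a 6) (a 9)) * (det3 (a 1) (a 2) (a 5)) * (det3 (a 1) (a 2) (a 12)) * (det3 (a 1) (a 5) (a 10)) * (det3 (a 1) (a 5) (a 12)) * (det3 (a 2) (a 5) (a 8)) * (det3 (a 2) (a 9) (a 12)) * (det3 (a 5) (a 8) (a 10)) * (det3 (a 5) (a 9) (a 10)) * (det3 (a 5) (a 9) (a 12))) * t) + ((((det3 (a 0) (a 2) (a 12)) * (det3 (a 1) (a 2) (a 5))) * (-(det3 (a 2) (a 9) (a 12)) * (det3 (a 0) (a 2) (a 6))) * (-(det3 (a 1) (a 2) (a 12)) * (det3 (a 5) (a 9) (a 12))) * ((det3 (a 2) (a 6) (a 8)) * (det3 (a 5) (a 8) (a 10))) * (-(det3 (a 1) (a 5) (a 10)) * (det3 (a 2) (a 5) (a 8))) * (-(det3 (a 1) (a 5) (a 12)) * (det3 (a 5) (a 9) (a 10))) * ((det3 (a 0) (a 5) (a 9)) * (det3 (a 6) (a 9) (a 10)))) * e0 + ((-(det3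 (a 0) (a 5) (a 9)) * (det3 (a 0) (a 2) (a 6))) * (-(det3 (a 2) (a 9) (a 12)) * (det3 (a 0) (a 2) (a 6))) * (-(det3 (a 1) (a 2) (a 12)) * (det3 (a 5) (a 9) (a 12))) * ((det3 (a 2) (a 6) (a 8)) * (det3 (a 5) (a 8) (a 10))) * (-(det3 (a 1) (a 5) (a 10)) * (det3 (a 2) (a 5) (a 8))) * (-(det3 (a 1) (a 5) (a 12)) * (det3 (a 5) (a 9) (a 10))) * ((det3 (a 0) (a 5) (a 9)) * (det3 (a 6) (a 9) (a 10)))) * e1 - ((-(det3 (a 0) (a 5) (a 9)) * (det3 (a 0) (a 2) (a 6))) * ((det3 (a 0) (a 2) (a 5)) * (det3 (a 1) (a 2) (a 12))) * (-(det3 (a 1) (a 2) (a 12)) * (det3 (a 5) (a 9) (a 12))) * ((det3 (a 2) (a 6) (a 8)) * (det3 (a 5) (a 8) (a 10))) * (-(det3 (a 1) (a 5) (a 10)) * (det3 (a 2) (a 5) (a 8))) * (-(det3 (a 1) (a 5) (a 12)) * (det3 (a 5) (a 9) (a 10))) * ((det3 (a 0) (a 5) (a 9)) * (det3 (a 6) (a 9) (a 10)))) * e2 + ((-(det3 (a 0) (a 5) (a 9)) * (det3 (a 0)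 (a 2) (a 6))) * ((det3 (a 0) (a 2) (a 5)) * (det3 (a 1) (a 2) (a 12))) * ((det3 (a 0) (a 2) (a 12)) * (det3 (a 2) (a 6) (a 9))) * ((det3 (a 2) (a 6) (a 8)) * (det3 (a 5) (a 8) (a 10))) * (-(det3 (a 1) (a 5) (a 10)) * (det3 (a 2) (a 5) (a 8))) * (-(det3 (a 1) (a 5) (a 12)) * (det3 (a 5) (a 9) (a 10))) * ((det3 (a 0) (a 5) (a 9)) * (det3 (a 6) (a 9) (a 10)))) * e3 - ((-(det3 (a 0) (a 5) (a 9)) * (det3 (a 0) (a 2) (a 6))) * ((det3 (a 0) (a 2) (a 5)) * (det3 (a 1) (a 2) (a 12))) * ((det3 (a 0) (a 2) (a 12)) * (det3 (a 2) (a 6) (a 9))) * (-(det3 (a 1) (a 5) (a 12)) * (det3 (a 2) (a 9) (a 12))) * (-(det3 (a 1) (a 5) (a 10)) * (det3 (a 2) (a 5) (a 8))) * (-(det3 (a 1) (a 5) (a 12)) * (det3 (a 5) (a 9) (a 10))) * ((det3 (a 0) (a 5) (a 9)) * (det3 (a 6) (a 9) (a 10)))) * e4 - ((-(det3 (a 0) (a 5) (a 9)) * (det3 (a 0) (a 2) (a 6))) * ((det3 (a 0) (a 2)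 (a 5)) * (det3 (a 1) (a 2) (a 12))) * ((det3 (a 0) (a 2) (a 12)) * (det3 (a 2) (a 6) (a 9))) * (-(det3 (a 1) (a 5) (a 12)) * (det3 (a 2) (a 9) (a 12))) * ((det3 (a 2) (a 5) (a 8)) * (det3 (a 6) (a 8) (a 10))) * (-(det3 (a 1) (a 5) (a 12)) * (det3 (a 5) (a 9) (a 10))) * ((det3 (a 0) (a 5) (a 9)) * (det3 (a 6) (a 9) (a 10)))) * e5 + ((-(det3 (a 0) (a 5) (a 9)) * (det3 (a 0) (a 2) (a 6))) * ((det3 (a 0) (a 2) (a 5)) * (det3 (a 1) (a 2) (a 12))) * ((det3 (a 0) (a 2) (a 12)) * (det3 (a 2) (a 6) (a 9))) * (-(det3 (a 1) (a 5) (a 12)) * (det3 (a 2) (a 9) (a 12))) * ((det3 (a 2) (a 5) (a 8)) * (det3 (a 6) (a 8) (a 10))) * ((det3 (a 1) (a 2) (a 5)) * (det3 (a 5) (a 8) (a 10))) * ((det3 (a 0) (a 5) (a 9)) * (det3 (a 6) (a 9) (a 10)))) * e6 + ((-(det3 (a 0) (a 5) (a 9)) * (det3 (a 0) (a 2) (a 6))) * ((det3 (a 0) (a 2) (a 5)) * (det3 (a 1) (a 2) (a 12))) *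 ((det3 (a 0) (a 2) (a 12)) * (det3 (a 2) (a 6) (a 9))) * (-(det3 (a 1) (a 5) (a 12)) * (det3 (a 2) (a 9) (a 12))) * ((det3 (a 2) (a 5) (a 8)) * (det3 (a 6) (a 8) (a 10))) * ((det3 (a 1) (a 2) (a 5)) * (det3 (a 5) (a 8) (a 10))) * (-(det3 (a 5) (a 9) (a 12)) * (det3 (a 1) (a 5) (a 10)))) * e7)
  exact mul_ne_zero (mul_ne_zero (mul_ne_zero (mul_ne_zero (mul_ne_zero (mul_ne_zero (mul_ne_zero (mul_ne_zero (mul_ne_zero (mul_ne_zero (mul_ne_zero (mul_ne_zero (mul_ne_zero (mul_ne_zero n0 n1) n2) n3) n4) n5) n6) n7) n8) n9) n11) n12) n13) n14) (mul_ne_zero n10 n15) key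

/-- Pappus configuration, classes 0 and 1. -/
theorem fp_pappus2 {a : Fin 14 → V3}
    (z0 : det3 (a 0) (a 1) (a 2) = 0)
    (z1 : det3 (a 0) (a 7) (a 8) = 0)
    (z2 : det3 (a 0) (a 11) (a 12) = 0)
    (z3 : det3 (a 1) (a 5) (a 8) = 0)
    (z4 : det3 (a 1) (a 9) (a 12) = 0)
    (z5 : det3 (a 2) (a 5) (a 11) = 0)
    (z6 : det3 (a 2) (a 7) (a 9) = 0)
    (z7 : det3 (a 5) (a 7) (a 12) = 0)
    (n0 : det3 (a 0) (a 2) (a 5) ≠ 0)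
    (n1 : det3 (a 0) (a 2) (a 11) ≠ 0)
    (n2 : det3 (a 0) (a 2) (a 12) ≠ 0)
    (n3 : det3 (a 0) (a 8) (a 11) ≠ 0)
    (n4 : det3 (a 0) (a 8) (a 12) ≠ 0)
    (n5 : det3 (a 1) (a 2) (a 5) ≠ 0)
    (n6 : det3 (a 1) (a 2) (a 12) ≠ 0)
    (n7 : det3 (a 1) (a 5) (a 12) ≠ 0)
    (n8 : det3 (a 1) (a 7) (a 12) ≠ 0)
    (n9 : det3 (a 2) (a 5) (a 8) ≠ 0)
    (n10 : det3 (a 2) (a 7) (a 11) ≠ 0)
    (n11 : det3 (a 2) (a 9) (a 12) ≠ 0)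
    (n12 : det3 (a 5) (a 8) (a 12) ≠ 0)
    (n13 : det3 (a 7) (a 8) (a 12) ≠ 0)
    (n14 : det3 (a 7) (a 9) (a 12) ≠ 0)
    (n15 : det3 (a 8) (a 9) (a 11) ≠ 0)
    : False := by
  have e0 := rel (a 0) (a 12) (a 11) (a 2) (a 8) (by rw [det3_xzy (a 0) (a 11) (a 12), z2, neg_zero])
  rw [det3_xzy (a 0) (a 2) (a 12), det3_xzy (a 0) (a 8) (a 11), det3_xzy (a 0) (a 8) (a 12), det3_xzy (a 0) (a 2) (a 11)] at e0
  have e1 := rel (a 2) (a 0) (a 1) (a 5) (a 12) (by rw [det3_zxy (a 0) (a 1) (a 2), z0])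
  rw [det3_yxz (a 0) (a 2) (a 5), det3_yxz (a 1) (a 2) (a 12), det3_yxz (a 0) (a 2) (a 12), det3_yxz (a 1) (a 2) (a 5)] at e1
  have e2 := rel (a 2) (a 5) (a 11) (a 0) (a 8) z5
  rw [det3_yzx (a 0) (a 2) (a 5), det3_xzy (a 2) (a 8) (a 11), det3_yzx (a 0) (a 2) (a 11)] at e2
  have e3 := rel (a 5) (a 1) (a 8) (a 2) (a 12) (by rw [det3_yxz (a 1) (a 5) (a 8), z3, neg_zero])
  rw [det3_zxy (a 1) (a 2) (a 5), det3_yxz (a 1) (a 5) (a 12), det3_yzx (a 2) (a 5) (a 8)] at e3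
  have e4 := rel (a 9) (a 2) (a 7) (a 12) (a 11) (by rw [det3_zxy (a 2) (a 7) (a 9), z6])
  rw [det3_yxz (a 2) (a 9) (a 12), det3_yxz (a 7) (a 9) (a 11), det3_yxz (a 2) (a 9) (a 11), det3_yxz (a 7) (a 9) (a 12)] at e4
  have e5 := rel (a 12) (a 1) (a 9) (a 2) (a 7) (by rw [det3_zxy (a 1) (a 9) (a 12), z4])
  rw [det3_zxy (a 1) (a 2) (a 12), det3_zyx (a 7) (a 9) (a 12), det3_zxy (a 1) (a 7) (a 12), det3_zyx (a 2) (a 9) (a 12)] at e5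
  have e6 := rel (a 12) (a 5) (a 7) (a 1) (a 8) (by rw [det3_zxy (a 5) (a 7) (a 12), z7])
  rw [det3_zyx (a 1) (a 5) (a 12), det3_zxy (a 7) (a 8) (a 12), det3_zxy (a 5) (a 8) (a 12), det3_zyx (a 1) (a 7) (a 12)] at e6
  have e7 := rel (a 8) (a 0) (a 7) (a 12) (a 11) (by rw [det3_zxy (a 0) (a 7) (a 8), z1])
  rw [det3_yxz (a 0) (a 8) (a 12), det3_yxz (a 7) (a 8) (a 11), det3_yxz (a 0) (a 8) (a 11), det3_yxz (a 7) (a 8) (a 12)] at e7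
  have t := gp (a 11) (a 2) (a 9) (a 7) (a 8)
  rw [det3_zxy (a 2) (a 9) (a 11), det3_zxy (a 7) (a 8) (a 11), det3_zxy (a 2) (a 7) (a 11), det3_zyx (a 8) (a 9) (a 11), det3_zxy (a 2) (a 8) (a 11), det3_zyx (a 7) (a 9) (a 11)] at t
  have key : ((det3 (a 0) (a 2) (a 5)) * (det3 (a 0) (a 2) (a 11)) * (det3 (a 0) (a 2) (a 12)) * (det3 (a 0) (a 8) (a 11)) * (det3 (a 0) (a 8) (a 12)) * (det3 (a 1) (a 2) (a 5)) * (det3 (a 1) (a 2) (a 12)) * (det3 (a 1) (a 5) (a 12)) * (det3 (a 1) (a 7) (a 12)) * (det3 (a 2) (a 5) (a 8)) * (det3 (a 2) (a 9) (a 12)) * (det3 (a 5) (a 8) (a 12)) * (det3 (a 7) (a 8) (a 12)) * (det3 (a 7) (a 9) (a 12))) * ((det3 (a 2) (a 7) (a 11)) * (det3 (a 8) (a 9) (a 11))) = 0 := by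
    linear_combination (1 : ℝ) * (((det3 (a 0) (a 2) (a 5)) * (det3 (a 0) (a 2) (a 11)) * (det3 (a 0) (a 2) (a 12)) * (det3 (a 0) (a 8) (a 11)) * (det3 (a 0) (a 8) (a 12)) * (det3 (a 1) (a 2) (a 5)) * (det3 (a 1) (a 2) (a 12)) * (det3 (a 1) (a 5) (a 12)) * (det3 (a 1) (a 7) (a 12)) * (det3 (a 2) (a 5) (a 8)) * (det3 (a 2) (a 9) (a 12)) * (det3 (a 5) (a 8) (a 12)) * (det3 (a 7) (a 8) (a 12)) * (det3 (a 7) (a 9) (a 12))) * t) - ((((det3 (a 0) (a 2) (a 5)) * (det3 (a 1) (a 2) (a 12))) * ((det3 (a 2) (a 5) (a 8)) * (det3 (a 0) (a 2) (a 11))) * ((det3 (a 1) (a 2) (a 5)) * (det3 (a 5) (a 8) (a 12))) * ((det3 (a 2) (a 9) (a 11)) * (det3 (a 7) (a 9) (a 12))) * (-(det3 (a 1) (a 7) (a 12)) * (det3 (a 2) (a 9) (a 12))) * (-(det3 (a 1) (a 5) (a 12)) * (det3 (a 7) (a 8) (a 12))) * ((det3 (a 0) (a 8) (a 12)) * (det3 (a 7) (a 8) (a 11)))) * e0 + (((det3 (a 0)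 (a 8) (a 12)) * (det3 (a 0) (a 2) (a 11))) * ((det3 (a 2) (a 5) (a 8)) * (det3 (a 0) (a 2) (a 11))) * ((det3 (a 1) (a 2) (a 5)) * (det3 (a 5) (a 8) (a 12))) * ((det3 (a 2) (a 9) (a 11)) * (det3 (a 7) (a 9) (a 12))) * (-(det3 (a 1) (a 7) (a 12)) * (det3 (a 2) (a 9) (a 12))) * (-(det3 (a 1) (a 5) (a 12)) * (det3 (a 7) (a 8) (a 12))) * ((det3 (a 0) (a 8) (a 12)) * (det3 (a 7) (a 8) (a 11)))) * e1 - (((det3 (a 0) (a 8) (a 12)) * (det3 (a 0) (a 2) (a 11))) * ((det3 (a 0) (a 2) (a 12)) * (det3 (a 1) (a 2) (a 5))) * ((det3 (a 1) (a 2) (a 5)) * (det3 (a 5) (a 8) (a 12))) * ((det3 (a 2) (a 9) (a 11)) * (det3 (a 7) (a 9) (a 12))) * (-(det3 (a 1) (a 7) (a 12)) * (det3 (a 2) (a 9) (a 12))) * (-(det3 (a 1) (a 5) (a 12)) * (det3 (a 7) (a 8) (a 12))) * ((det3 (a 0) (a 8) (a 12)) * (det3 (a 7) (a 8) (a 11)))) * e2 + (((det3 (a 0) (a 8) (a 12)) * (det3 (a 0) (a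 2) (a 11))) * ((det3 (a 0) (a 2) (a 12)) * (det3 (a 1) (a 2) (a 5))) * (-(det3 (a 0) (a 2) (a 5)) * (det3 (a 2) (a 8) (a 11))) * ((det3 (a 2) (a 9) (a 11)) * (det3 (a 7) (a 9) (a 12))) * (-(det3 (a 1) (a 7) (a 12)) * (det3 (a 2) (a 9) (a 12))) * (-(det3 (a 1) (a 5) (a 12)) * (det3 (a 7) (a 8) (a 12))) * ((det3 (a 0) (a 8) (a 12)) * (det3 (a 7) (a 8) (a 11)))) * e3 - (((det3 (a 0) (a 8) (a 12)) * (det3 (a 0) (a 2) (a 11))) * ((det3 (a 0) (a 2) (a 12)) * (det3 (a 1) (a 2) (a 5))) * (-(det3 (a 0) (a 2) (a 5)) * (det3 (a 2) (a 8) (a 11))) * (-(det3 (a 1) (a 5) (a 12)) * (det3 (a 2) (a 5) (a 8))) * (-(det3 (a 1) (a 7) (a 12)) * (det3 (a 2) (a 9) (a 12))) * (-(det3 (a 1) (a 5) (a 12)) * (det3 (a 7) (a 8) (a 12))) * ((det3 (a 0) (a 8) (a 12)) * (det3 (a 7) (a 8) (a 11)))) * e4 - (((det3 (a 0) (a 8) (a 12)) * (det3 (a 0) (a 2) (a 11))) * ((det3 (a 0)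 (a 2) (a 12)) * (det3 (a 1) (a 2) (a 5))) * (-(det3 (a 0) (a 2) (a 5)) * (det3 (a 2) (a 8) (a 11))) * (-(det3 (a 1) (a 5) (a 12)) * (det3 (a 2) (a 5) (a 8))) * ((det3 (a 2) (a 9) (a 12)) * (det3 (a 7) (a 9) (a 11))) * (-(det3 (a 1) (a 5) (a 12)) * (det3 (a 7) (a 8) (a 12))) * ((det3 (a 0) (a 8) (a 12)) * (det3 (a 7) (a 8) (a 11)))) * e5 + (((det3 (a 0) (a 8) (a 12)) * (det3 (a 0) (a 2) (a 11))) * ((det3 (a 0) (a 2) (a 12)) * (det3 (a 1) (a 2) (a 5))) * (-(det3 (a 0) (a 2) (a 5)) * (det3 (a 2) (a 8) (a 11))) * (-(det3 (a 1) (a 5) (a 12)) * (det3 (a 2) (a 5) (a 8))) * ((det3 (a 2) (a 9) (a 12)) * (det3 (a 7) (a 9) (a 11))) * (-(det3 (a 1) (a 2) (a 12)) * (det3 (a 7) (a 9) (a 12))) * ((det3 (a 0) (a 8) (a 12)) * (det3 (a 7) (a 8) (a 11)))) * e6 + (((det3 (a 0) (a 8) (a 12)) * (det3 (a 0) (a 2) (a 11))) * ((det3 (a 0) (a 2) (a 12)) * (det3 (a 1) (a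 2) (a 5))) * (-(det3 (a 0) (a 2) (a 5)) * (det3 (a 2) (a 8) (a 11))) * (-(det3 (a 1) (a 5) (a 12)) * (det3 (a 2) (a 5) (a 8))) * ((det3 (a 2) (a 9) (a 12)) * (det3 (a 7) (a 9) (a 11))) * (-(det3 (a 1) (a 2) (a 12)) * (det3 (a 7) (a 9) (a 12))) * (-(det3 (a 5) (a 8) (a 12)) * (det3 (a 1) (a 7) (a 12)))) * e7)
  exact mul_ne_zero (mul_ne_zero (mul_ne_zero (mul_ne_zero (mul_ne_zero (mul_ne_zero (mul_ne_zero (mul_ne_zero (mul_ne_zero (mul_ne_zero (mul_ne_zero (mul_ne_zero (mul_ne_zero (mul_ne_zero n0 n1) n2) n3) n4) n5) n6) n7) n8) n9) n11) n12) n13) n14) (mul_ne_zero n10 n15) key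

/-- Desargues configuration, class 2. -/
theorem fp_desargues1 {a : Fin 14 → V3}
    (z0 : det3 (a 0) (a 1) (a 3) = 0)
    (z1 : det3 (a 0) (a 5) (a 6) = 0)
    (z2 : det3 (a 0) (a 11) (a 12) = 0)
    (z3 : det3 (a 1) (a 4) (a 6) = 0)
    (z4 : det3 (a 1) (a 9) (a 12) = 0)
    (z5 : det3 (a 2) (a 4) (a 9) = 0)
    (z6 : det3 (a 2) (a 5) (a 11) = 0)
    (z7 : det3 (a 2) (a 6) (a 12) = 0)
    (z8 : det3 (a 3) (a 4) (a 5) = 0)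
    (n0 : det3 (a 0) (a 1) (a 4) ≠ 0)
    (n1 : det3 (a 0) (a 1) (a 5) ≠ 0)
    (n2 : det3 (a 0) (a 1) (a 6) ≠ 0)
    (n3 : det3 (a 0) (a 3) (a 4) ≠ 0)
    (n4 : det3 (a 0) (a 3) (a 5) ≠ 0)
    (n5 : det3 (a 0) (a 5) (a 12) ≠ 0)
    (n6 : det3 (a 0) (a 6) (a 12) ≠ 0)
    (n7 : det3 (a 1) (a 2) (a 12) ≠ 0)
    (n8 : det3 (a 1) (a 4) (a 12) ≠ 0)
    (n9 : det3 (a 1) (a 6) (a 12) ≠ 0)
    (n10 : det3 (a 2) (a 3) (a 5) ≠ 0)
    (n11 : det3 (a 2) (a 9) (a 12) ≠ 0)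
    (n12 : det3 (a 2) (a 11) (a 12) ≠ 0)
    (n13 : det3 (a 3) (a 4) (a 9) ≠ 0)
    (n14 : det3 (a 3) (a 9) (a 11) ≠ 0)
    (n15 : det3 (a 4) (a 9) (a 12) ≠ 0)
    (n16 : det3 (a 5) (a 11) (a 12) ≠ 0)
    (n17 : det3 (a 6) (a 11) (a 12) ≠ 0)
    : False := by
  have e0 := rel (a 0) (a 1) (a 3) (a 4) (a 5) z0
  have e1 := rel (a 0) (a 6) (a 5) (a 1) (a 12) (by rw [det3_xzy (a 0) (a 5) (a 6), z1, neg_zero])
  rw [det3_xzy (a 0) (a 1) (a 6), det3_xzy (a 0) (a 1) (a 5)] at e1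
  have e2 := rel (a 9) (a 2) (a 4) (a 3) (a 12) (by rw [det3_zxy (a 2) (a 4) (a 9), z5])
  rw [det3_zxy (a 2) (a 3) (a 9), det3_yxz (a 4) (a 9) (a 12), det3_yxz (a 2) (a 9) (a 12), det3_zyx (a 3) (a 4) (a 9)] at e2
  have e3 := rel (a 1) (a 4) (a 6) (a 0) (a 12) z3
  rw [det3_yzx (a 0) (a 1) (a 4), det3_yzx (a 0) (a 1) (a 6)] at e3
  have e4 := rel (a 3) (a 4) (a 5) (a 0) (a 9) z8
  rw [det3_yzx (a 0) (a 3) (a 4), det3_yzx (a 0) (a 3) (a 5)] at e4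
  have e5 := rel (a 12) (a 0) (a 11) (a 6) (a 5) (by rw [det3_zxy (a 0) (a 11) (a 12), z2])
  rw [det3_zxy (a 0) (a 6) (a 12), det3_zyx (a 5) (a 11) (a 12), det3_zxy (a 0) (a 5) (a 12), det3_zyx (a 6) (a 11) (a 12)] at e5
  have e6 := rel (a 12) (a 9) (a 1) (a 2) (a 4) (by rw [det3_zyx (a 1) (a 9) (a 12), z4, neg_zero])
  rw [det3_zyx (a 2) (a 9) (a 12), det3_zxy (a 1) (a 4) (a 12), det3_zyx (a 4) (a 9) (a 12), det3_zxy (a 1) (a 2) (a 12)] at e6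
  have e7 := rel (a 12) (a 2) (a 6) (a 1) (a 11) (by rw [det3_zxy (a 2) (a 6) (a 12), z7])
  rw [det3_zyx (a 1) (a 2) (a 12), det3_zxy (a 6) (a 11) (a 12), det3_zxy (a 2) (a 11) (a 12), det3_zyx (a 1) (a 6) (a 12)] at e7
  have e8 := rel (a 11) (a 2) (a 5) (a 3) (a 12) (by rw [det3_zxy (a 2) (a 5) (a 11), z6])
  rw [det3_zxy (a 2) (a 3) (a 11), det3_yxz (a 5) (a 11) (a 12), det3_yxz (a 2) (a 11) (a 12), det3_zyx (a 3) (a 5) (a 11)] at e8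
  have t := gp (a 3) (a 9) (a 2) (a 5) (a 11)
  rw [det3_yzx (a 2) (a 3) (a 9), det3_xzy (a 3) (a 5) (a 9), det3_yxz (a 2) (a 3) (a 11), det3_yxz (a 2) (a 3) (a 5)] at t
  have key : ((det3 (a 0) (a 1) (a 4)) * (det3 (a 0) (a 1) (a 5)) * (det3 (a 0) (a 1) (a 6)) * (det3 (a 0) (a 3) (a 4)) * (det3 (a 0) (a 3) (a 5)) * (det3 (a 0) (a 5) (a 12)) * (det3 (a 0) (a 6) (a 12)) * (det3 (a 1) (a 2) (a 12)) * (det3 (a 1) (a 4) (a 12)) * (det3 (a 1) (a 6) (a 12)) * (det3 (a 2) (a 9) (a 12)) * (det3 (a 2) (a 11) (a 12)) * (det3 (a 3) (a 4) (a 9)) * (det3 (a 4) (a 9) (a 12)) * (det3 (a 5) (a 11) (a 12)) * (det3 (a 6) (a 11) (a 12))) * ((det3 (a 2) (a 3) (a 5)) * (det3 (a 3) (a 9) (a 11))) = 0 := by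
    linear_combination (-1 : ℝ) * (((det3 (a 0) (a 1) (a 4)) * (det3 (a 0) (a 1) (a 5)) * (det3 (a 0) (a 1) (a 6)) * (det3 (a 0) (a 3) (a 4)) * (det3 (a 0) (a 3) (a 5)) * (det3 (a 0) (a 5) (a 12)) * (det3 (a 0) (a 6) (a 12)) * (det3 (a 1) (a 2) (a 12)) * (det3 (a 1) (a 4) (a 12)) * (det3 (a 1) (a 6) (a 12)) * (det3 (a 2) (a 9) (a 12)) * (det3 (a 2) (a 11) (a 12)) * (det3 (a 3) (a 4) (a 9)) * (det3 (a 4) (a 9) (a 12)) * (det3 (a 5) (a 11) (a 12)) * (det3 (a 6) (a 11) (a 12))) * t) + (((-(det3 (a 0) (a 6) (a 12)) * (det3 (a 0) (a 1) (a 5))) * ((det3 (a 2) (a 9) (a 12)) * (det3 (a 3) (a 4) (a 9))) * ((det3 (a 1) (a 4) (a 12)) * (det3 (a 0) (a 1) (a 6))) * ((det3 (a 0) (a 3) (a 4)) * (det3 (a 3) (a 5) (a 9))) * (-(det3 (a 0) (a 5) (a 12)) * (det3 (a 6) (a 11) (a 12))) * (-(det3 (a 4) (a 9) (a 12)) * (det3 (a 1) (a 2) (a 12))) * (-(det3 (a 2) (a 11)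 (a 12)) * (det3 (a 1) (a 6) (a 12))) * (-(det3 (a 2) (a 3) (a 11)) * (det3 (a 5) (a 11) (a 12)))) * e0 - (((det3 (a 0) (a 1) (a 5)) * (det3 (a 0) (a 3) (a 4))) * ((det3 (a 2) (a 9) (a 12)) * (det3 (a 3) (a 4) (a 9))) * ((det3 (a 1) (a 4) (a 12)) * (det3 (a 0) (a 1) (a 6))) * ((det3 (a 0) (a 3) (a 4)) * (det3 (a 3) (a 5) (a 9))) * (-(det3 (a 0) (a 5) (a 12)) * (det3 (a 6) (a 11) (a 12))) * (-(det3 (a 4) (a 9) (a 12)) * (det3 (a 1) (a 2) (a 12))) * (-(det3 (a 2) (a 11) (a 12)) * (det3 (a 1) (a 6) (a 12))) * (-(det3 (a 2) (a 3) (a 11)) * (det3 (a 5) (a 11) (a 12)))) * e1 - (((det3 (a 0) (a 1) (a 5)) * (det3 (a 0) (a 3) (a 4))) * (-(det3 (a 0) (a 1) (a 6)) * (det3 (a 0) (a 5) (a 12))) * ((det3 (a 1) (a 4) (a 12)) * (det3 (a 0) (a 1) (a 6))) * ((det3 (a 0) (a 3) (a 4)) * (det3 (a 3) (a 5) (a 9))) * (-(det3 (a 0) (a 5) (a 12)) * (det3 (a 6) (a 11) (a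 12))) * (-(det3 (a 4) (a 9) (a 12)) * (det3 (a 1) (a 2) (a 12))) * (-(det3 (a 2) (a 11) (a 12)) * (det3 (a 1) (a 6) (a 12))) * (-(det3 (a 2) (a 3) (a 11)) * (det3 (a 5) (a 11) (a 12)))) * e2 - (((det3 (a 0) (a 1) (a 5)) * (det3 (a 0) (a 3) (a 4))) * (-(det3 (a 0) (a 1) (a 6)) * (det3 (a 0) (a 5) (a 12))) * (-(det3 (a 2) (a 3) (a 9)) * (det3 (a 4) (a 9) (a 12))) * ((det3 (a 0) (a 3) (a 4)) * (det3 (a 3) (a 5) (a 9))) * (-(det3 (a 0) (a 5) (a 12)) * (det3 (a 6) (a 11) (a 12))) * (-(det3 (a 4) (a 9) (a 12)) * (det3 (a 1) (a 2) (a 12))) * (-(det3 (a 2) (a 11) (a 12)) * (det3 (a 1) (a 6) (a 12))) * (-(det3 (a 2) (a 3) (a 11)) * (det3 (a 5) (a 11) (a 12)))) * e3 + (((det3 (a 0) (a 1) (a 5)) * (det3 (a 0) (a 3) (a 4))) * (-(det3 (a 0) (a 1) (a 6)) * (det3 (a 0) (a 5) (a 12))) * (-(det3 (a 2) (a 3) (a 9)) * (det3 (a 4) (a 9) (a 12))) * ((det3 (a 0) (a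 1) (a 4)) * (det3 (a 1) (a 6) (a 12))) * (-(det3 (a 0) (a 5) (a 12)) * (det3 (a 6) (a 11) (a 12))) * (-(det3 (a 4) (a 9) (a 12)) * (det3 (a 1) (a 2) (a 12))) * (-(det3 (a 2) (a 11) (a 12)) * (det3 (a 1) (a 6) (a 12))) * (-(det3 (a 2) (a 3) (a 11)) * (det3 (a 5) (a 11) (a 12)))) * e4 - (((det3 (a 0) (a 1) (a 5)) * (det3 (a 0) (a 3) (a 4))) * (-(det3 (a 0) (a 1) (a 6)) * (det3 (a 0) (a 5) (a 12))) * (-(det3 (a 2) (a 3) (a 9)) * (det3 (a 4) (a 9) (a 12))) * ((det3 (a 0) (a 1) (a 4)) * (det3 (a 1) (a 6) (a 12))) * ((det3 (a 3) (a 4) (a 9)) * (det3 (a 0) (a 3) (a 5))) * (-(det3 (a 4) (a 9) (a 12)) * (det3 (a 1) (a 2) (a 12))) * (-(det3 (a 2) (a 11) (a 12)) * (det3 (a 1) (a 6) (a 12))) * (-(det3 (a 2) (a 3) (a 11)) * (det3 (a 5) (a 11) (a 12)))) * e5 - (((det3 (a 0) (a 1) (a 5)) * (det3 (a 0) (a 3) (a 4))) * (-(det3 (a 0) (a 1) (a 6)) * (det3 (a 0)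 (a 5) (a 12))) * (-(det3 (a 2) (a 3) (a 9)) * (det3 (a 4) (a 9) (a 12))) * ((det3 (a 0) (a 1) (a 4)) * (det3 (a 1) (a 6) (a 12))) * ((det3 (a 3) (a 4) (a 9)) * (det3 (a 0) (a 3) (a 5))) * (-(det3 (a 0) (a 6) (a 12)) * (det3 (a 5) (a 11) (a 12))) * (-(det3 (a 2) (a 11) (a 12)) * (det3 (a 1) (a 6) (a 12))) * (-(det3 (a 2) (a 3) (a 11)) * (det3 (a 5) (a 11) (a 12)))) * e6 - (((det3 (a 0) (a 1) (a 5)) * (det3 (a 0) (a 3) (a 4))) * (-(det3 (a 0) (a 1) (a 6)) * (det3 (a 0) (a 5) (a 12))) * (-(det3 (a 2) (a 3) (a 9)) * (det3 (a 4) (a 9) (a 12))) * ((det3 (a 0) (a 1) (a 4)) * (det3 (a 1) (a 6) (a 12))) * ((det3 (a 3) (a 4) (a 9)) * (det3 (a 0) (a 3) (a 5))) * (-(det3 (a 0) (a 6) (a 12)) * (det3 (a 5) (a 11) (a 12))) * (-(det3 (a 2) (a 9) (a 12)) * (det3 (a 1) (a 4) (a 12))) * (-(det3 (a 2) (a 3) (a 11)) * (det3 (a 5) (a 11) (a 12)))) * e7 + (((det3 (a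 0) (a 1) (a 5)) * (det3 (a 0) (a 3) (a 4))) * (-(det3 (a 0) (a 1) (a 6)) * (det3 (a 0) (a 5) (a 12))) * (-(det3 (a 2) (a 3) (a 9)) * (det3 (a 4) (a 9) (a 12))) * ((det3 (a 0) (a 1) (a 4)) * (det3 (a 1) (a 6) (a 12))) * ((det3 (a 3) (a 4) (a 9)) * (det3 (a 0) (a 3) (a 5))) * (-(det3 (a 0) (a 6) (a 12)) * (det3 (a 5) (a 11) (a 12))) * (-(det3 (a 2) (a 9) (a 12)) * (det3 (a 1) (a 4) (a 12))) * (-(det3 (a 1) (a 2) (a 12)) * (det3 (a 6) (a 11) (a 12)))) * e8)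
  exact mul_ne_zero (mul_ne_zero (mul_ne_zero (mul_ne_zero (mul_ne_zero (mul_ne_zero (mul_ne_zero (mul_ne_zero (mul_ne_zero (mul_ne_zero (mul_ne_zero (mul_ne_zero (mul_ne_zero (mul_ne_zero (mul_ne_zero (mul_ne_zero n0 n1) n2) n3) n4) n5) n6) n7) n8) n9) n11) n12) n13) n15) n16) n17) (mul_ne_zero n10 n14) key

/-- Desargues configuration, class 2. -/
theorem fp_desargues2 {a : Fin 14 → V3}
    (z0 : det3 (a 0) (a 1) (a 3) = 0)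
    (z1 : det3 (a 0) (a 5) (a 6) = 0)
    (z2 : det3 (a 0) (a 11) (a 12) = 0)
    (z3 : det3 (a 1) (a 4) (a 6) = 0)
    (z4 : det3 (a 2) (a 4) (a 10) = 0)
    (z5 : det3 (a 2) (a 5) (a 11) = 0)
    (z6 : det3 (a 2) (a 6) (a 12) = 0)
    (z7 : det3 (a 3) (a 4) (a 5) = 0)
    (z8 : det3 (a 3) (a 10) (a 11) = 0)
    (n0 : det3 (a 0) (a 1) (a 4) ≠ 0)
    (n1 : det3 (a 0) (a 1) (a 6) ≠ 0)
    (n2 : det3 (a 0) (a 3) (a 4) ≠ 0)
    (n3 : det3 (a 0) (a 3) (a 5) ≠ 0)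
    (n4 : det3 (a 0) (a 3) (a 6) ≠ 0)
    (n5 : det3 (a 0) (a 5) (a 11) ≠ 0)
    (n6 : det3 (a 0) (a 6) (a 11) ≠ 0)
    (n7 : det3 (a 1) (a 2) (a 6) ≠ 0)
    (n8 : det3 (a 1) (a 4) (a 10) ≠ 0)
    (n9 : det3 (a 1) (a 10) (a 12) ≠ 0)
    (n10 : det3 (a 2) (a 3) (a 11) ≠ 0)
    (n11 : det3 (a 2) (a 10) (a 11) ≠ 0)
    (n12 : det3 (a 2) (a 11) (a 12) ≠ 0)
    (n13 : det3 (a 3) (a 4) (a 11) ≠ 0)
    (n14 : det3 (a 3) (a 5) (a 11) ≠ 0)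
    (n15 : det3 (a 4) (a 10) (a 11) ≠ 0)
    (n16 : det3 (a 5) (a 11) (a 12) ≠ 0)
    (n17 : det3 (a 6) (a 11) (a 12) ≠ 0)
    : False := by
  have e0 := rel (a 0) (a 3) (a 1) (a 4) (a 6) (by rw [det3_xzy (a 0) (a 1) (a 3), z0, neg_zero])
  have e1 := rel (a 0) (a 5) (a 6) (a 3) (a 11) z1
  rw [det3_xzy (a 0) (a 3) (a 5), det3_xzy (a 0) (a 3) (a 6)] at e1
  have e2 := rel (a 10) (a 2) (a 4) (a 1) (a 11) (by rw [det3_zxy (a 2) (a 4) (a 10), z4])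
  rw [det3_zyx (a 1) (a 2) (a 10), det3_yxz (a 4) (a 10) (a 11), det3_yxz (a 2) (a 10) (a 11), det3_zyx (a 1) (a 4) (a 10)] at e2
  have e3 := rel (a 3) (a 4) (a 5) (a 0) (a 11) z7
  rw [det3_yzx (a 0) (a 3) (a 4), det3_yzx (a 0) (a 3) (a 5)] at e3
  have e4 := rel (a 1) (a 4) (a 6) (a 0) (a 10) z3
  rw [det3_yzx (a 0) (a 1) (a 4), det3_yzx (a 0) (a 1) (a 6)] at e4
  have e5 := rel (a 11) (a 0) (a 12) (a 5) (a 6) (by rw [det3_yxz (a 0) (a 11) (a 12), z2, neg_zero])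
  rw [det3_zxy (a 0) (a 5) (a 11), det3_yzx (a 6) (a 11) (a 12), det3_zxy (a 0) (a 6) (a 11), det3_yzx (a 5) (a 11) (a 12)] at e5
  have e6 := rel (a 11) (a 10) (a 3) (a 2) (a 4) (by rw [det3_zyx (a 3) (a 10) (a 11), z8, neg_zero])
  rw [det3_zyx (a 2) (a 10) (a 11), det3_zxy (a 3) (a 4) (a 11), det3_zyx (a 4) (a 10) (a 11), det3_zyx (a 2) (a 3) (a 11)] at e6
  have e7 := rel (a 11) (a 2) (a 5) (a 3) (a 12) (by rw [det3_zxy (a 2) (a 5) (a 11), z5])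
  rw [det3_zxy (a 2) (a 3) (a 11), det3_yxz (a 5) (a 11) (a 12), det3_yxz (a 2) (a 11) (a 12), det3_zyx (a 3) (a 5) (a 11)] at e7
  have e8 := rel (a 12) (a 2) (a 6) (a 1) (a 11) (by rw [det3_zxy (a 2) (a 6) (a 12), z6])
  rw [det3_zyx (a 1) (a 2) (a 12), det3_zxy (a 6) (a 11) (a 12), det3_zxy (a 2) (a 11) (a 12), det3_zyx (a 1) (a 6) (a 12)] at e8
  have t := gp (a 1) (a 10) (a 2) (a 6) (a 12)
  rw [det3_xzy (a 1) (a 2) (a 10), det3_xzy (a 1) (a 6) (a 10)] at t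
  have key : ((det3 (a 0) (a 1) (a 4)) * (det3 (a 0) (a 1) (a 6)) * (det3 (a 0) (a 3) (a 4)) * (det3 (a 0) (a 3) (a 5)) * (det3 (a 0) (a 3) (a 6)) * (det3 (a 0) (a 5) (a 11)) * (det3 (a 0) (a 6) (a 11)) * (det3 (a 1) (a 4) (a 10)) * (det3 (a 2) (a 3) (a 11)) * (det3 (a 2) (a 10) (a 11)) * (det3 (a 2) (a 11) (a 12)) * (det3 (a 3) (a 4) (a 11)) * (det3 (a 3) (a 5) (a 11)) * (det3 (a 4) (a 10) (a 11)) * (det3 (a 5) (a 11) (a 12)) * (det3 (a 6) (a 11) (a 12))) * ((det3 (a 1) (a 2) (a 6)) * (det3 (a 1) (a 10) (a 12))) = 0 := by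
    linear_combination (1 : ℝ) * (((det3 (a 0) (a 1) (a 4)) * (det3 (a 0) (a 1) (a 6)) * (det3 (a 0) (a 3) (a 4)) * (det3 (a 0) (a 3) (a 5)) * (det3 (a 0) (a 3) (a 6)) * (det3 (a 0) (a 5) (a 11)) * (det3 (a 0) (a 6) (a 11)) * (det3 (a 1) (a 4) (a 10)) * (det3 (a 2) (a 3) (a 11)) * (det3 (a 2) (a 10) (a 11)) * (det3 (a 2) (a 11) (a 12)) * (det3 (a 3) (a 4) (a 11)) * (det3 (a 3) (a 5) (a 11)) * (det3 (a 4) (a 10) (a 11)) * (det3 (a 5) (a 11) (a 12)) * (det3 (a 6) (a 11) (a 12))) * t) - (((-(det3 (a 0) (a 5) (a 11)) * (det3 (a 0) (a 3) (a 6))) * ((det3 (a 2) (a 10) (a 11)) * (det3 (a 1) (a 4) (a 10))) * ((det3 (a 3) (a 4) (a 11)) * (det3 (a 0) (a 3) (a 5))) * ((det3 (a 0) (a 1) (a 4)) * (det3 (a 1) (a 6) (a 10))) * ((det3 (a 0) (a 6) (a 11)) * (det3 (a 5) (a 11) (a 12))) * ((det3 (a 4) (a 10) (a 11)) * (det3 (a 2) (a 3) (a 11))) * ((det3 (a 2) (a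 11) (a 12)) * (det3 (a 3) (a 5) (a 11))) * (-(det3 (a 1) (a 2) (a 12)) * (det3 (a 6) (a 11) (a 12)))) * e0 - (((det3 (a 0) (a 3) (a 6)) * (det3 (a 0) (a 1) (a 4))) * ((det3 (a 2) (a 10) (a 11)) * (det3 (a 1) (a 4) (a 10))) * ((det3 (a 3) (a 4) (a 11)) * (det3 (a 0) (a 3) (a 5))) * ((det3 (a 0) (a 1) (a 4)) * (det3 (a 1) (a 6) (a 10))) * ((det3 (a 0) (a 6) (a 11)) * (det3 (a 5) (a 11) (a 12))) * ((det3 (a 4) (a 10) (a 11)) * (det3 (a 2) (a 3) (a 11))) * ((det3 (a 2) (a 11) (a 12)) * (det3 (a 3) (a 5) (a 11))) * (-(det3 (a 1) (a 2) (a 12)) * (det3 (a 6) (a 11) (a 12)))) * e1 - (((det3 (a 0) (a 3) (a 6)) * (det3 (a 0) (a 1) (a 4))) * (-(det3 (a 0) (a 3) (a 5)) * (det3 (a 0) (a 6) (a 11))) * ((det3 (a 3) (a 4) (a 11)) * (det3 (a 0) (a 3) (a 5))) * ((det3 (a 0) (a 1) (a 4)) * (det3 (a 1) (a 6) (a 10))) * ((det3 (a 0) (a 6) (a 11)) * (det3 (a 5) (a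 11) (a 12))) * ((det3 (a 4) (a 10) (a 11)) * (det3 (a 2) (a 3) (a 11))) * ((det3 (a 2) (a 11) (a 12)) * (det3 (a 3) (a 5) (a 11))) * (-(det3 (a 1) (a 2) (a 12)) * (det3 (a 6) (a 11) (a 12)))) * e2 - (((det3 (a 0) (a 3) (a 6)) * (det3 (a 0) (a 1) (a 4))) * (-(det3 (a 0) (a 3) (a 5)) * (det3 (a 0) (a 6) (a 11))) * ((det3 (a 1) (a 2) (a 10)) * (det3 (a 4) (a 10) (a 11))) * ((det3 (a 0) (a 1) (a 4)) * (det3 (a 1) (a 6) (a 10))) * ((det3 (a 0) (a 6) (a 11)) * (det3 (a 5) (a 11) (a 12))) * ((det3 (a 4) (a 10) (a 11)) * (det3 (a 2) (a 3) (a 11))) * ((det3 (a 2) (a 11) (a 12)) * (det3 (a 3) (a 5) (a 11))) * (-(det3 (a 1) (a 2) (a 12)) * (det3 (a 6) (a 11) (a 12)))) * e3 + (((det3 (a 0) (a 3) (a 6)) * (det3 (a 0) (a 1) (a 4))) * (-(det3 (a 0) (a 3) (a 5)) * (det3 (a 0) (a 6) (a 11))) * ((det3 (a 1) (a 2) (a 10)) * (det3 (a 4) (a 10) (a 11))) * ((det3 (a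 0) (a 3) (a 4)) * (det3 (a 3) (a 5) (a 11))) * ((det3 (a 0) (a 6) (a 11)) * (det3 (a 5) (a 11) (a 12))) * ((det3 (a 4) (a 10) (a 11)) * (det3 (a 2) (a 3) (a 11))) * ((det3 (a 2) (a 11) (a 12)) * (det3 (a 3) (a 5) (a 11))) * (-(det3 (a 1) (a 2) (a 12)) * (det3 (a 6) (a 11) (a 12)))) * e4 - (((det3 (a 0) (a 3) (a 6)) * (det3 (a 0) (a 1) (a 4))) * (-(det3 (a 0) (a 3) (a 5)) * (det3 (a 0) (a 6) (a 11))) * ((det3 (a 1) (a 2) (a 10)) * (det3 (a 4) (a 10) (a 11))) * ((det3 (a 0) (a 3) (a 4)) * (det3 (a 3) (a 5) (a 11))) * ((det3 (a 1) (a 4) (a 10)) * (det3 (a 0) (a 1) (a 6))) * ((det3 (a 4) (a 10) (a 11)) * (det3 (a 2) (a 3) (a 11))) * ((det3 (a 2) (a 11) (a 12)) * (det3 (a 3) (a 5) (a 11))) * (-(det3 (a 1) (a 2) (a 12)) * (det3 (a 6) (a 11) (a 12)))) * e5 - (((det3 (a 0) (a 3) (a 6)) * (det3 (a 0) (a 1) (a 4))) * (-(det3 (a 0) (a 3) (a 5)) * (det3 (a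 0) (a 6) (a 11))) * ((det3 (a 1) (a 2) (a 10)) * (det3 (a 4) (a 10) (a 11))) * ((det3 (a 0) (a 3) (a 4)) * (det3 (a 3) (a 5) (a 11))) * ((det3 (a 1) (a 4) (a 10)) * (det3 (a 0) (a 1) (a 6))) * ((det3 (a 0) (a 5) (a 11)) * (det3 (a 6) (a 11) (a 12))) * ((det3 (a 2) (a 11) (a 12)) * (det3 (a 3) (a 5) (a 11))) * (-(det3 (a 1) (a 2) (a 12)) * (det3 (a 6) (a 11) (a 12)))) * e6 - (((det3 (a 0) (a 3) (a 6)) * (det3 (a 0) (a 1) (a 4))) * (-(det3 (a 0) (a 3) (a 5)) * (det3 (a 0) (a 6) (a 11))) * ((det3 (a 1) (a 2) (a 10)) * (det3 (a 4) (a 10) (a 11))) * ((det3 (a 0) (a 3) (a 4)) * (det3 (a 3) (a 5) (a 11))) * ((det3 (a 1) (a 4) (a 10)) * (det3 (a 0) (a 1) (a 6))) * ((det3 (a 0) (a 5) (a 11)) * (det3 (a 6) (a 11) (a 12))) * (-(det3 (a 2) (a 10) (a 11)) * (det3 (a 3) (a 4) (a 11))) * (-(det3 (a 1) (a 2) (a 12)) * (det3 (a 6) (a 11) (a 12)))) * e7 + (((det3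 (a 0) (a 3) (a 6)) * (det3 (a 0) (a 1) (a 4))) * (-(det3 (a 0) (a 3) (a 5)) * (det3 (a 0) (a 6) (a 11))) * ((det3 (a 1) (a 2) (a 10)) * (det3 (a 4) (a 10) (a 11))) * ((det3 (a 0) (a 3) (a 4)) * (det3 (a 3) (a 5) (a 11))) * ((det3 (a 1) (a 4) (a 10)) * (det3 (a 0) (a 1) (a 6))) * ((det3 (a 0) (a 5) (a 11)) * (det3 (a 6) (a 11) (a 12))) * (-(det3 (a 2) (a 10) (a 11)) * (det3 (a 3) (a 4) (a 11))) * (-(det3 (a 2) (a 3) (a 11)) * (det3 (a 5) (a 11) (a 12)))) * e8)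
  exact mul_ne_zero (mul_ne_zero (mul_ne_zero (mul_ne_zero (mul_ne_zero (mul_ne_zero (mul_ne_zero (mul_ne_zero (mul_ne_zero (mul_ne_zero (mul_ne_zero (mul_ne_zero (mul_ne_zero (mul_ne_zero (mul_ne_zero (mul_ne_zero n0 n1) n2) n3) n4) n5) n6) n8) n10) n11) n12) n13) n14) n15) n16) n17) (mul_ne_zero n7 n9) key

/-- The four clauses: the triples of the first list are concurrent and those of the second list are
not. Triples are increasing. -/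
def fpData : List (List (Fin 14 × Fin 14 × Fin 14) × List (Fin 14 × Fin 14 × Fin 14)) :=
  [([(0, 1, 2), (0, 5, 6), (0, 9, 10), (1, 5, 8), (1, 9, 12), (2, 6, 12), (2, 8, 10), (5, 10, 12)],
    [(0, 2, 5), (0, 2, 6), (0, 2, 12), (0, 5, 9), (0, 6, 9), (1, 2, 5), (1, 2, 12), (1, 5, 10), (1, 5, 12), (2, 5, 8), (2, 6, 10), (2, 9, 12), (5, 8, 10), (5, 9, 10), (5, 9, 12), (6, 8, 9)]),
   ([(0, 1, 2), (0, 7, 8), (0, 11, 12), (1, 5, 8), (1, 9, 12), (2, 5, 11), (2, 7, 9), (5, 7, 12)],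
    [(0, 2, 5), (0, 2, 11), (0, 2, 12), (0, 8, 11), (0, 8, 12), (1, 2, 5), (1, 2, 12), (1, 5, 12), (1, 7, 12), (2, 5, 8), (2, 7, 11), (2, 9, 12), (5, 8, 12), (7, 8, 12), (7, 9, 12), (8, 9, 11)]),
   ([(0, 1, 3), (0, 5, 6), (0, 11, 12), (1, 4, 6), (1, 9, 12), (2, 4, 9), (2, 5, 11), (2, 6, 12), (3, 4, 5)],
    [(0, 1, 4), (0, 1, 5), (0, 1, 6), (0, 3, 4), (0, 3, 5), (0, 5, 12), (0, 6, 12), (1, 2, 12), (1, 4, 12), (1, 6, 12), (2, 3, 5), (2, 9, 12), (2, 11, 12), (3, 4, 9), (3, 9, 11), (4, 9, 12), (5, 11, 12), (6, 11, 12)]),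
   ([(0, 1, 3), (0, 5, 6), (0, 11, 12), (1, 4, 6), (2, 4, 10), (2, 5, 11), (2, 6, 12), (3, 4, 5), (3, 10, 11)],
    [(0, 1, 4), (0, 1, 6), (0, 3, 4), (0, 3, 5), (0, 3, 6), (0, 5, 11), (0, 6, 11), (1, 2, 6), (1, 4, 10), (1, 10, 12), (2, 3, 11), (2, 10, 11), (2, 11, 12), (3, 4, 11), (3, 5, 11), (4, 10, 11), (5, 11, 12), (6, 11, 12)])]

theorem fpData_false {a : Fin 14 → V3} {W : Wiring 14} (h : Realizes a W) :
    ∀ c ∈ fpData, (∀ t ∈ c.1, W.X t.1 t.2.1 = W.X t.1 t.2.2) →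
      (∀ t ∈ c.2, W.X t.1 t.2.1 ≠ W.X t.1 t.2.2) → False := by
  have hz : ∀ i j k : Fin 14, i < j → j < k → W.X i j = W.X i k →
      det3 (a i) (a j) (a k) = 0 := fun i j k h1 h2 h3 => (h i j k h1 h2).2.2 h3
  have hn : ∀ i j k : Fin 14, i < j → j < k → W.X i j ≠ W.X i k →
      det3 (a i) (a j) (a k) ≠ 0 := fun i j k h1 h2 h3 h4 => h3 ((h i j k h1 h2).2.1 h4)
  intro c hc
  rw [fpData] at hc
  rcases List.mem_cons.1 hc with rfl | hc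
  · intro z n
    exact fp_pappus1 (hz 0 1 2 (by decide) (by decide) (z (0, 1, 2) (by decide)))
      (hz 0 5 6 (by decide) (by decide) (z (0, 5, 6) (by decide)))
      (hz 0 9 10 (by decide) (by decide) (z (0, 9, 10) (by decide)))
      (hz 1 5 8 (by decide) (by decide) (z (1, 5, 8) (by decide)))
      (hz 1 9 12 (by decide) (by decide) (z (1, 9, 12) (by decide)))
      (hz 2 6 12 (by decide) (by decide) (z (2, 6, 12) (by decide)))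
      (hz 2 8 10 (by decide) (by decide) (z (2, 8, 10) (by decide)))
      (hz 5 10 12 (by decide) (by decide) (z (5, 10, 12) (by decide)))
      (hn 0 2 5 (by decide) (by decide) (n (0, 2, 5) (by decide)))
      (hn 0 2 6 (by decide) (by decide) (n (0, 2, 6) (by decide)))
      (hn 0 2 12 (by decide) (by decide) (n (0, 2, 12) (by decide)))
      (hn 0 5 9 (by decide) (by decide) (n (0, 5, 9) (by decide)))
      (hn 0 6 9 (by decide) (by decide) (n (0, 6, 9) (by decide)))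
      (hn 1 2 5 (by decide) (by decide) (n (1, 2, 5) (by decide)))
      (hn 1 2 12 (by decide) (by decide) (n (1, 2, 12) (by decide)))
      (hn 1 5 10 (by decide) (by decide) (n (1, 5, 10) (by decide)))
      (hn 1 5 12 (by decide) (by decide) (n (1, 5, 12) (by decide)))
      (hn 2 5 8 (by decide) (by decide) (n (2, 5, 8) (by decide)))
      (hn 2 6 10 (by decide) (by decide) (n (2, 6, 10) (by decide)))
      (hn 2 9 12 (by decide) (by decide) (n (2, 9, 12) (by decide)))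
      (hn 5 8 10 (by decide) (by decide) (n (5, 8, 10) (by decide)))
      (hn 5 9 10 (by decide) (by decide) (n (5, 9, 10) (by decide)))
      (hn 5 9 12 (by decide) (by decide) (n (5, 9, 12) (by decide)))
      (hn 6 8 9 (by decide) (by decide) (n (6, 8, 9) (by decide)))
  rcases List.mem_cons.1 hc with rfl | hc
  · intro z n
    exact fp_pappus2 (hz 0 1 2 (by decide) (by decide) (z (0, 1, 2) (by decide)))
      (hz 0 7 8 (by decide) (by decide) (z (0, 7, 8) (by decide)))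
      (hz 0 11 12 (by decide) (by decide) (z (0, 11, 12) (by decide)))
      (hz 1 5 8 (by decide) (by decide) (z (1, 5, 8) (by decide)))
      (hz 1 9 12 (by decide) (by decide) (z (1, 9, 12) (by decide)))
      (hz 2 5 11 (by decide) (by decide) (z (2, 5, 11) (by decide)))
      (hz 2 7 9 (by decide) (by decide) (z (2, 7, 9) (by decide)))
      (hz 5 7 12 (by decide) (by decide) (z (5, 7, 12) (by decide)))
      (hn 0 2 5 (by decide) (by decide) (n (0, 2, 5) (by decide)))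
      (hn 0 2 11 (by decide) (by decide) (n (0, 2, 11) (by decide)))
      (hn 0 2 12 (by decide) (by decide) (n (0, 2, 12) (by decide)))
      (hn 0 8 11 (by decide) (by decide) (n (0, 8, 11) (by decide)))
      (hn 0 8 12 (by decide) (by decide) (n (0, 8, 12) (by decide)))
      (hn 1 2 5 (by decide) (by decide) (n (1, 2, 5) (by decide)))
      (hn 1 2 12 (by decide) (by decide) (n (1, 2, 12) (by decide)))
      (hn 1 5 12 (by decide) (by decide) (n (1, 5, 12) (by decide)))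
      (hn 1 7 12 (by decide) (by decide) (n (1, 7, 12) (by decide)))
      (hn 2 5 8 (by decide) (by decide) (n (2, 5, 8) (by decide)))
      (hn 2 7 11 (by decide) (by decide) (n (2, 7, 11) (by decide)))
      (hn 2 9 12 (by decide) (by decide) (n (2, 9, 12) (by decide)))
      (hn 5 8 12 (by decide) (by decide) (n (5, 8, 12) (by decide)))
      (hn 7 8 12 (by decide) (by decide) (n (7, 8, 12) (by decide)))
      (hn 7 9 12 (by decide) (by decide) (n (7, 9, 12) (by decide)))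
      (hn 8 9 11 (by decide) (by decide) (n (8, 9, 11) (by decide)))
  rcases List.mem_cons.1 hc with rfl | hc
  · intro z n
    exact fp_desargues1 (hz 0 1 3 (by decide) (by decide) (z (0, 1, 3) (by decide)))
      (hz 0 5 6 (by decide) (by decide) (z (0, 5, 6) (by decide)))
      (hz 0 11 12 (by decide) (by decide) (z (0, 11, 12) (by decide)))
      (hz 1 4 6 (by decide) (by decide) (z (1, 4, 6) (by decide)))
      (hz 1 9 12 (by decide) (by decide) (z (1, 9, 12) (by decide)))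
      (hz 2 4 9 (by decide) (by decide) (z (2, 4, 9) (by decide)))
      (hz 2 5 11 (by decide) (by decide) (z (2, 5, 11) (by decide)))
      (hz 2 6 12 (by decide) (by decide) (z (2, 6, 12) (by decide)))
      (hz 3 4 5 (by decide) (by decide) (z (3, 4, 5) (by decide)))
      (hn 0 1 4 (by decide) (by decide) (n (0, 1, 4) (by decide)))
      (hn 0 1 5 (by decide) (by decide) (n (0, 1, 5) (by decide)))
      (hn 0 1 6 (by decide) (by decide) (n (0, 1, 6) (by decide)))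
      (hn 0 3 4 (by decide) (by decide) (n (0, 3, 4) (by decide)))
      (hn 0 3 5 (by decide) (by decide) (n (0, 3, 5) (by decide)))
      (hn 0 5 12 (by decide) (by decide) (n (0, 5, 12) (by decide)))
      (hn 0 6 12 (by decide) (by decide) (n (0, 6, 12) (by decide)))
      (hn 1 2 12 (by decide) (by decide) (n (1, 2, 12) (by decide)))
      (hn 1 4 12 (by decide) (by decide) (n (1, 4, 12) (by decide)))
      (hn 1 6 12 (by decide) (by decide) (n (1, 6, 12) (by decide)))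
      (hn 2 3 5 (by decide) (by decide) (n (2, 3, 5) (by decide)))
      (hn 2 9 12 (by decide) (by decide) (n (2, 9, 12) (by decide)))
      (hn 2 11 12 (by decide) (by decide) (n (2, 11, 12) (by decide)))
      (hn 3 4 9 (by decide) (by decide) (n (3, 4, 9) (by decide)))
      (hn 3 9 11 (by decide) (by decide) (n (3, 9, 11) (by decide)))
      (hn 4 9 12 (by decide) (by decide) (n (4, 9, 12) (by decide)))
      (hn 5 11 12 (by decide) (by decide) (n (5, 11, 12) (by decide)))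
      (hn 6 11 12 (by decide) (by decide) (n (6, 11, 12) (by decide)))
  rcases List.mem_cons.1 hc with rfl | hc
  · intro z n
    exact fp_desargues2 (hz 0 1 3 (by decide) (by decide) (z (0, 1, 3) (by decide)))
      (hz 0 5 6 (by decide) (by decide) (z (0, 5, 6) (by decide)))
      (hz 0 11 12 (by decide) (by decide) (z (0, 11, 12) (by decide)))
      (hz 1 4 6 (by decide) (by decide) (z (1, 4, 6) (by decide)))
      (hz 2 4 10 (by decide) (by decide) (z (2, 4, 10) (by decide)))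
      (hz 2 5 11 (by decide) (by decide) (z (2, 5, 11) (by decide)))
      (hz 2 6 12 (by decide) (by decide) (z (2, 6, 12) (by decide)))
      (hz 3 4 5 (by decide) (by decide) (z (3, 4, 5) (by decide)))
      (hz 3 10 11 (by decide) (by decide) (z (3, 10, 11) (by decide)))
      (hn 0 1 4 (by decide) (by decide) (n (0, 1, 4) (by decide)))
      (hn 0 1 6 (by decide) (by decide) (n (0, 1, 6) (by decide)))
      (hn 0 3 4 (by decide) (by decide) (n (0, 3, 4) (by decide)))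
      (hn 0 3 5 (by decide) (by decide) (n (0, 3, 5) (by decide)))
      (hn 0 3 6 (by decide) (by decide) (n (0, 3, 6) (by decide)))
      (hn 0 5 11 (by decide) (by decide) (n (0, 5, 11) (by decide)))
      (hn 0 6 11 (by decide) (by decide) (n (0, 6, 11) (by decide)))
      (hn 1 2 6 (by decide) (by decide) (n (1, 2, 6) (by decide)))
      (hn 1 4 10 (by decide) (by decide) (n (1, 4, 10) (by decide)))
      (hn 1 10 12 (by decide) (by decide) (n (1, 10, 12) (by decide)))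
      (hn 2 3 11 (by decide) (by decide) (n (2, 3, 11) (by decide)))
      (hn 2 10 11 (by decide) (by decide) (n (2, 10, 11) (by decide)))
      (hn 2 11 12 (by decide) (by decide) (n (2, 11, 12) (by decide)))
      (hn 3 4 11 (by decide) (by decide) (n (3, 4, 11) (by decide)))
      (hn 3 5 11 (by decide) (by decide) (n (3, 5, 11) (by decide)))
      (hn 4 10 11 (by decide) (by decide) (n (4, 10, 11) (by decide)))
      (hn 5 11 12 (by decide) (by decide) (n (5, 11, 12) (by decide)))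
      (hn 6 11 12 (by decide) (by decide) (n (6, 11, 12) (by decide)))
  · exact absurd hc List.not_mem_nil

end FP

end Pool.Agent.Helper15.PL
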